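import Mathlib

/-! A radial stretching of a closed ball, truncated near the centre. -/

set_option autoImplicit false

open Set Filter Topology MeasureTheory Metric
open scoped NNReal RealInnerProductSpace ENNReal ContDiff

namespace Pool.Agent.TH335.QC

/-- clamp a number to the interval `[r, R]` -/
noncomputable def cl (r R t : ℝ) : ℝ := max r (min t R)

lemma cl_pos {r R : ℝ} (hr : 0 < r) (t : ℝ) : 0 < cl r R t := lt_max_of_lt_left hr

lemma r_le_cl (r R t : ℝ) : r ≤ cl r R t := le_max_left _ _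

lemma cl_le {r R : ℝ} (h : r ≤ R) (t : ℝ) : cl r R t ≤ R := max_le h (min_le_right _ _)

lemma le_cl {r R t : ℝ} (h : t ≤ R) : t ≤ cl r R t := by
  unfold cl
  rw [min_eq_left h]
  exact le_max_right _ _

lemma cl_mono {r R t τ : ℝ} (h : τ ≤ t) : cl r R τ ≤ cl r R t :=
  max_le_max le_rfl (min_le_min h le_rfl)

lemma cl_out {r R t : ℝ} (h : r ≤ R) (ht : R ≤ t) : cl r R t = R := by
  unfold cl
  rw [min_eq_right ht, max_eq_right h]

lemma cl_in {r R t : ℝ} (h : r ≤ R) (ht : t ≤ r) : cl r R t = r := by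
  unfold cl
  rw [min_eq_left (ht.trans h), max_eq_left ht]

lemma cl_mid {r R t : ℝ} (h : r ≤ t) (ht : t ≤ R) : cl r R t = t := by
  unfold cl
  rw [min_eq_left ht, max_eq_right h]

lemma cl_sub {r R t τ : ℝ} (h : τ ≤ t) : cl r R t - cl r R τ ≤ t - τ := by
  have h1 : cl r R t ≤ cl r R τ + (t - τ) := by
    unfold cl
    apply max_le
    · have := le_max_left r (min τ R)
      linarith
    · have h2 := le_max_right r (min τ R)
      rcases le_total τ R with h3 | h3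
      · rw [min_eq_left h3] at h2 ⊢
        have := min_le_left t R
        linarith
      · rw [min_eq_right h3] at h2 ⊢
        have := min_le_right t R
        linarith
  linarith

lemma continuous_cl (r R : ℝ) : Continuous (cl r R) := by
  unfold cl; fun_prop

/-- the stretch factor -/
noncomputable def lam (b r R t : ℝ) : ℝ := (R / cl r R t) ^ b

section lam

variable {b r R : ℝ}

lemma lam_pos (hr : 0 < r) (hrR : r ≤ R) (t : ℝ) : 0 < lam b r R t :=
  Real.rpow_pos_of_pos (div_pos (hr.trans_le hrR) (cl_pos hr t)) _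

lemma one_le_lam (hb : 0 ≤ b) (hr : 0 < r) (hrR : r ≤ R) (t : ℝ) : 1 ≤ lam b r R t :=
  Real.one_le_rpow ((one_le_div (cl_pos hr t)).mpr (cl_le hrR t)) hb

lemma lam_out (hr : 0 < r) (hrR : r ≤ R) {t : ℝ} (ht : R ≤ t) : lam b r R t = 1 := by
  unfold lam
  rw [cl_out hrR ht, div_self (hr.trans_le hrR).ne', Real.one_rpow]

lemma lam_in (hrR : r ≤ R) {t : ℝ} (ht : t ≤ r) : lam b r R t = (R / r) ^ b := by
  unfold lam
  rw [cl_in hrR ht]

lemma lam_mid {t : ℝ} (h : r ≤ t) (ht : t ≤ R) : lam b r R t = (R / t) ^ b := by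
  unfold lam
  rw [cl_mid h ht]

lemma lam_anti (hb : 0 ≤ b) (hr : 0 < r) (hrR : r ≤ R) {t τ : ℝ} (h : τ ≤ t) :
    lam b r R t ≤ lam b r R τ := by
  unfold lam
  have h1 := cl_pos (R := R) hr t
  have h2 := cl_pos (R := R) hr τ
  have h3 := cl_mono (r := r) (R := R) h
  have hR := hr.trans_le hrR
  gcongr

lemma lam_le (hb : 0 ≤ b) (hr : 0 < r) (hrR : r ≤ R) (t : ℝ) : lam b r R t ≤ (R / r) ^ b := by
  unfold lam
  have h1 := cl_pos (R := R) hr t
  have h2 := r_le_cl r R t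
  have hR := hr.trans_le hrR
  gcongr

lemma continuous_lam (hr : 0 < r) (hrR : r ≤ R) : Continuous (lam b r R) := by
  unfold lam
  apply Continuous.rpow_const
  · exact continuous_const.div (continuous_cl r R) (fun t => (cl_pos hr t).ne')
  · intro t
    exact Or.inl (div_pos (hr.trans_le hrR) (cl_pos hr t)).ne'

lemma lam_key (hb1 : b ≤ 1) (hr : 0 < r) (hrR : r ≤ R) {t τ : ℝ} (hτ : 0 ≤ τ) (h : τ ≤ t) :
    (lam b r R τ - lam b r R t) * τ ≤ lam b r R t * (t - τ) := by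
  have hR := hr.trans_le hrR
  rcases le_total R τ with h1 | h1
  · rw [lam_out hr hrR h1, lam_out hr hrR (h1.trans h)]
    nlinarith
  · have hv := cl_pos (R := R) hr τ
    have hu := cl_pos (R := R) hr t
    have hvu := cl_mono (r := r) (R := R) h
    have hτv := le_cl (r := r) h1
    have hsub := cl_sub (r := r) (R := R) h
    have hlt := lam_pos (b := b) hr hrR t
    have e : lam b r R τ = lam b r R t * (cl r R t / cl r R τ) ^ b := by
      unfold lam
      rw [← Real.mul_rpow (by positivity) (by positivity)]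
      congr 1
      field_simp
    have h2 : (cl r R t / cl r R τ) ^ b ≤ cl r R t / cl r R τ := by
      have h3 : 1 ≤ cl r R t / cl r R τ := (one_le_div hv).mpr hvu
      calc (cl r R t / cl r R τ) ^ b ≤ (cl r R t / cl r R τ) ^ (1:ℝ) :=
            Real.rpow_le_rpow_of_exponent_le h3 hb1
        _ = _ := Real.rpow_one _
    calc (lam b r R τ - lam b r R t) * τ
        = lam b r R t * (((cl r R t / cl r R τ) ^ b - 1) * τ) := by rw [e]; ring
      _ ≤ lam b r R t * ((cl r R t / cl r R τ - 1) * τ) := by gcongr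
      _ ≤ lam b r R t * ((cl r R t / cl r R τ - 1) * cl r R τ) := by
          have h3 : 1 ≤ cl r R t / cl r R τ := (one_le_div hv).mpr hvu
          have h4 : 0 ≤ cl r R t / cl r R τ - 1 := by linarith
          gcongr
      _ = lam b r R t * (cl r R t - cl r R τ) := by
          field_simp
      _ ≤ _ := by gcongr

lemma rad_mono (hb1 : b < 1) (hr : 0 < r) (hrR : r ≤ R) {t τ : ℝ} (hτ : 0 ≤ τ)
    (h : τ < t) : lam b r R τ * τ < lam b r R t * t := by
  have hR := hr.trans_le hrR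
  have hlt := lam_pos (b := b) hr hrR t
  have ht : 0 < t := hτ.trans_lt h
  rcases hτ.eq_or_lt with h0 | h0
  · rw [← h0, mul_zero]; positivity
  have hvu := cl_mono (r := r) (R := R) h.le
  rcases hvu.eq_or_lt with h1 | h1
  · have : lam b r R τ = lam b r R t := by unfold lam; rw [h1]
    rw [this]
    gcongr
  · have hτR : τ ≤ R := by
      by_contra hcon
      push Not at hcon
      rw [cl_out hrR hcon.le, cl_out hrR (hcon.le.trans h.le)] at h1
      exact lt_irrefl _ h1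
    have hv := cl_pos (R := R) hr τ
    have hu := cl_pos (R := R) hr t
    have hτv := le_cl (r := r) hτR
    have hsub := cl_sub (r := r) (R := R) h.le
    have e : lam b r R τ = lam b r R t * (cl r R t / cl r R τ) ^ b := by
      unfold lam
      rw [← Real.mul_rpow (by positivity) (by positivity)]
      congr 1
      field_simp
    have h2 : (cl r R t / cl r R τ) ^ b < cl r R t / cl r R τ := by
      have h3 : 1 < cl r R t / cl r R τ := (one_lt_div hv).mpr h1
      calc (cl r R t / cl r R τ) ^ b < (cl r R t / cl r R τ) ^ (1:ℝ) :=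
            Real.rpow_lt_rpow_of_exponent_lt h3 hb1
        _ = _ := Real.rpow_one _
    have h5 : cl r R t / cl r R τ * τ ≤ t := by
      rw [div_mul_eq_mul_div, div_le_iff₀ hv]
      nlinarith
    calc lam b r R τ * τ = lam b r R t * ((cl r R t / cl r R τ) ^ b * τ) := by rw [e]; ring
      _ < lam b r R t * ((cl r R t / cl r R τ) * τ) := by gcongr
      _ ≤ _ := by gcongr

end lam

variable {E : Type*} [NormedAddCommGroup E] [InnerProductSpace ℝ E]

/-- the truncated radial stretching -/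
noncomputable def S (b r R : ℝ) (y : E) : E := lam b r R ‖y‖ • y

section S

variable {b r R : ℝ}

lemma norm_S (hr : 0 < r) (hrR : r ≤ R) (y : E) : ‖S b r R y‖ = lam b r R ‖y‖ * ‖y‖ := by
  unfold S
  rw [norm_smul, Real.norm_of_nonneg (lam_pos hr hrR _).le]

lemma S_out (hr : 0 < r) (hrR : r ≤ R) {y : E} (h : R ≤ ‖y‖) : S b r R y = y := by
  unfold S
  rw [lam_out hr hrR h, one_smul]

lemma S_in (hrR : r ≤ R) {y : E} (h : ‖y‖ ≤ r) : S b r R y = ((R / r) ^ b) • y := by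
  unfold S
  rw [lam_in hrR h]

lemma S_inj (hb1 : b < 1) (hr : 0 < r) (hrR : r ≤ R) :
    Function.Injective (S b r R : E → E) := by
  intro x y h
  have h1 : lam b r R ‖x‖ * ‖x‖ = lam b r R ‖y‖ * ‖y‖ := by
    rw [← norm_S hr hrR, ← norm_S hr hrR, h]
  have h2 : ‖x‖ = ‖y‖ := by
    rcases lt_trichotomy ‖x‖ ‖y‖ with h3 | h3 | h3
    · exact absurd h1 (rad_mono hb1 hr hrR (norm_nonneg _) h3).ne
    · exact h3
    · exact absurd h1 (rad_mono hb1 hr hrR (norm_nonneg _) h3).ne'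
  unfold S at h
  rw [h2] at h
  exact smul_right_injective E (lam_pos hr hrR _).ne' h

lemma S_norm_le (hb1 : b < 1) (hr : 0 < r) (hrR : r ≤ R) {y : E} (h : ‖y‖ ≤ R) :
    ‖S b r R y‖ ≤ R := by
  rw [norm_S hr hrR]
  rcases h.eq_or_lt with h1 | h1
  · rw [h1, lam_out hr hrR le_rfl, one_mul]
  · have := rad_mono hb1 hr hrR (norm_nonneg y) h1
    rw [lam_out hr hrR le_rfl, one_mul] at this
    exact this.le

lemma S_surj (hr : 0 < r) (hrR : r ≤ R) {z : E} (h : ‖z‖ ≤ R) :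
    ∃ y : E, ‖y‖ ≤ R ∧ S b r R y = z := by
  have hR := hr.trans_le hrR
  have hc : ContinuousOn (fun t => lam b r R t * t) (Icc 0 R) :=
    ((continuous_lam hr hrR).mul continuous_id).continuousOn
  have h1 := intermediate_value_Icc hR.le hc
  have h2 : ‖z‖ ∈ Icc (lam b r R 0 * 0) (lam b r R R * R) := by
    rw [mul_zero, lam_out hr hrR le_rfl, one_mul]
    exact ⟨norm_nonneg _, h⟩
  obtain ⟨t, ht, htz⟩ := h1 h2
  rcases eq_or_ne z 0 with h0 | h0
  · refine ⟨0, by rw [norm_zero]; exact hR.le, ?_⟩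
    rw [h0]; unfold S; rw [smul_zero]
  · have hz : 0 < ‖z‖ := norm_pos_iff.mpr h0
    have hn : ‖(t / ‖z‖) • z‖ = t := by
      rw [norm_smul, Real.norm_of_nonneg (div_nonneg ht.1 hz.le), div_mul_cancel₀ _ hz.ne']
    refine ⟨(t / ‖z‖) • z, by rw [hn]; exact ht.2, ?_⟩
    unfold S
    rw [hn, smul_smul, mul_div_assoc']
    have : lam b r R t * t = ‖z‖ := htz
    rw [this, div_self hz.ne', one_smul]

lemma S_sub_le_aux (hb : 0 ≤ b) (hb1 : b ≤ 1) (hr : 0 < r) (hrR : r ≤ R) {x y : E}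
    (h : ‖y‖ ≤ ‖x‖) : ‖S b r R x - S b r R y‖ ≤ 2 * lam b r R ‖x‖ * ‖x - y‖ := by
  have e : S b r R x - S b r R y = lam b r R ‖x‖ • (x - y) -
      (lam b r R ‖y‖ - lam b r R ‖x‖) • y := by
    unfold S
    rw [smul_sub, sub_smul]; abel
  have hl := lam_pos (b := b) hr hrR ‖x‖
  have h1 : 0 ≤ lam b r R ‖y‖ - lam b r R ‖x‖ := sub_nonneg.mpr (lam_anti hb hr hrR h)
  have h2 := lam_key hb1 hr hrR (norm_nonneg y) h
  have h3 : ‖x‖ - ‖y‖ ≤ ‖x - y‖ := norm_sub_norm_le x y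
  rw [e]
  calc _ ≤ ‖lam b r R ‖x‖ • (x - y)‖ + ‖(lam b r R ‖y‖ - lam b r R ‖x‖) • y‖ := norm_sub_le _ _
    _ = lam b r R ‖x‖ * ‖x - y‖ + (lam b r R ‖y‖ - lam b r R ‖x‖) * ‖y‖ := by
        rw [norm_smul, norm_smul, Real.norm_of_nonneg hl.le, Real.norm_of_nonneg h1]
    _ ≤ lam b r R ‖x‖ * ‖x - y‖ + lam b r R ‖x‖ * (‖x‖ - ‖y‖) := by gcongr
    _ ≤ lam b r R ‖x‖ * ‖x - y‖ + lam b r R ‖x‖ * ‖x - y‖ := by gcongr
    _ = _ := by ring

lemma S_lip (hb : 0 ≤ b) (hb1 : b ≤ 1) (hr : 0 < r) (hrR : r ≤ R) (x y : E) :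
    ‖S b r R x - S b r R y‖ ≤ 2 * (R / r) ^ b * ‖x - y‖ := by
  rcases le_total ‖y‖ ‖x‖ with h | h
  · refine (S_sub_le_aux hb hb1 hr hrR h).trans ?_
    have := lam_le hb hr hrR ‖x‖
    gcongr
  · rw [norm_sub_rev, norm_sub_rev x y]
    refine (S_sub_le_aux hb hb1 hr hrR h).trans ?_
    have := lam_le hb hr hrR ‖y‖
    gcongr

/-- the displacement of the truncated radial stretching -/
noncomputable def g (b r R : ℝ) (y : E) : E := S b r R y - y

lemma g_out (hr : 0 < r) (hrR : r ≤ R) {y : E} (h : R ≤ ‖y‖) : g b r R y = 0 := by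
  unfold g
  rw [S_out hr hrR h, sub_self]

lemma g_zero : g b r R (0:E) = 0 := by
  unfold g S; simp

lemma g_hol_aux {α : ℝ} (hb : 0 ≤ b) (hb1 : b < 1) (hα : α < 1) (hαb : 1 - α < b)
    (hr : 0 < r) (hrR : r ≤ R) (hRr : R ^ b ≤ r ^ (b - (1 - α))) {x y : E}
    (hx : ‖x‖ ≤ R) (hyx : ‖y‖ ≤ ‖x‖) :
    ‖g b r R x - g b r R y‖ ≤ 6 * ‖x - y‖ ^ α := by
  have hR := hr.trans_le hrR
  rcases (norm_nonneg (x - y)).eq_or_lt with h0 | h0
  · have : x = y := by rw [← sub_eq_zero, ← norm_eq_zero]; exact h0.symm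
    rw [this, sub_self, norm_zero, sub_self, norm_zero]
    have := Real.rpow_nonneg (le_refl (0:ℝ)) α
    linarith
  set δ := ‖x - y‖ with hδ
  set m := cl r R ‖x‖ with hm
  have hm0 : 0 < m := cl_pos hr _
  have hrm : r ≤ m := r_le_cl r R _
  have hxm : ‖x‖ ≤ m := le_cl hx
  have hδ2 : δ ≤ 2 * m := by
    have : δ ≤ ‖x‖ + ‖y‖ := norm_sub_le _ _
    linarith
  have h1 : ‖S b r R x - S b r R y‖ ≤ 2 * lam b r R ‖x‖ * δ :=
    S_sub_le_aux hb hb1.le hr hrR hyx
  have e1 : δ = δ ^ (1 - α) * δ ^ α := by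
    rw [← Real.rpow_add h0, sub_add_cancel, Real.rpow_one]
  have hδα : 0 < δ ^ α := Real.rpow_pos_of_pos h0 _
  have h2 : lam b r R ‖x‖ * δ ^ (1 - α) ≤ 2 := by
    have h3 : δ ^ (1 - α) ≤ (2 * m) ^ (1 - α) :=
      Real.rpow_le_rpow h0.le hδ2 (by linarith)
    have h4 : (2 * m) ^ (1 - α) ≤ 2 * m ^ (1 - α) := by
      rw [Real.mul_rpow (by norm_num) hm0.le]
      have : (2:ℝ) ^ (1 - α) ≤ 2 := by
        calc (2:ℝ) ^ (1 - α) ≤ 2 ^ (1:ℝ) :=
              Real.rpow_le_rpow_of_exponent_le (by norm_num) (by linarith)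
          _ = 2 := Real.rpow_one _
      gcongr
    have h5 : lam b r R ‖x‖ * m ^ (1 - α) = R ^ b / m ^ (b - (1 - α)) := by
      unfold lam
      rw [← hm, Real.div_rpow hR.le hm0.le, Real.rpow_sub hm0 b (1 - α)]
      have := Real.rpow_pos_of_pos hm0 b
      have := Real.rpow_pos_of_pos hm0 (1 - α)
      field_simp
    have h6 : R ^ b / m ^ (b - (1 - α)) ≤ 1 := by
      rw [div_le_one (Real.rpow_pos_of_pos hm0 _)]
      exact hRr.trans (Real.rpow_le_rpow hr.le hrm (by linarith))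
    have hl := lam_pos (b := b) hr hrR ‖x‖
    calc lam b r R ‖x‖ * δ ^ (1 - α) ≤ lam b r R ‖x‖ * (2 * m ^ (1 - α)) := by
          gcongr
          exact h3.trans h4
      _ = 2 * (lam b r R ‖x‖ * m ^ (1 - α)) := by ring
      _ ≤ 2 * 1 := by rw [h5]; gcongr
      _ = 2 := by norm_num
  have h7 : δ ^ (1 - α) ≤ 2 := by
    have := one_le_lam hb hr hrR ‖x‖
    have h8 : 0 < δ ^ (1 - α) := Real.rpow_pos_of_pos h0 _
    nlinarith
  have h9 : g b r R x - g b r R y = (S b r R x - S b r R y) - (x - y) := by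
    unfold g; abel
  rw [h9]
  calc ‖(S b r R x - S b r R y) - (x - y)‖ ≤ ‖S b r R x - S b r R y‖ + δ := norm_sub_le _ _
    _ ≤ 2 * lam b r R ‖x‖ * δ + δ := by gcongr
    _ = 2 * lam b r R ‖x‖ * (δ ^ (1 - α) * δ ^ α) + δ ^ (1 - α) * δ ^ α := by
        rw [← e1]
    _ = 2 * (lam b r R ‖x‖ * δ ^ (1 - α)) * δ ^ α + δ ^ (1 - α) * δ ^ α := by
        ring
    _ ≤ 2 * 2 * δ ^ α + 2 * δ ^ α := by gcongr
    _ = _ := by ring

lemma g_hol {α : ℝ} (hb : 0 ≤ b) (hb1 : b < 1) (hα0 : 0 < α) (hα : α < 1) (hαb : 1 - α < b)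
    (hr : 0 < r) (hrR : r ≤ R) (hRr : R ^ b ≤ r ^ (b - (1 - α))) (x y : E) :
    ‖g b r R x - g b r R y‖ ≤ 6 * ‖x - y‖ ^ α := by
  have hR := hr.trans_le hrR
  wlog h : ‖y‖ ≤ ‖x‖ generalizing x y
  · rw [norm_sub_rev, norm_sub_rev x y]
    exact this y x (le_of_not_ge h)
  rcases le_total ‖x‖ R with h1 | h1
  · exact g_hol_aux hb hb1 hα hαb hr hrR hRr h1 h
  rw [g_out hr hrR h1]
  have h0 : 0 ≤ 6 * ‖x - y‖ ^ α := by positivity
  rcases le_total R ‖y‖ with h2 | h2
  · rw [g_out hr hrR h2, sub_self, norm_zero]; exact h0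
  rcases eq_or_ne y 0 with h3 | h3
  · rw [h3, g_zero, sub_self, norm_zero]
    rw [h3] at h0
    exact h0
  have hy : 0 < ‖y‖ := norm_pos_iff.mpr h3
  set y' : E := (R / ‖y‖) • y with hy'
  have hy'n : ‖y'‖ = R := by
    rw [hy', norm_smul, Real.norm_of_nonneg (by positivity), div_mul_cancel₀ _ hy.ne']
  have h4 := g_hol_aux hb hb1 hα hαb hr hrR hRr (x := y') (y := y) hy'n.le
    (by rw [hy'n]; exact h2)
  rw [g_out hr hrR hy'n.ge] at h4
  refine h4.trans ?_
  have h5 : ‖y' - y‖ ≤ ‖x - y‖ := by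
    have e : y' - y = (R / ‖y‖ - 1) • y := by rw [sub_smul, one_smul]
    have h6 : 0 ≤ R / ‖y‖ - 1 := by
      rw [sub_nonneg]; exact (one_le_div hy).mpr h2
    rw [e, norm_smul, Real.norm_of_nonneg h6, sub_mul, div_mul_cancel₀ _ hy.ne', one_mul]
    have := norm_sub_norm_le x y
    linarith
  gcongr

end S

end Pool.Agent.TH335.QC
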