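import Mathlib
import Pool.Agent.TH335.QCa

/-! The derivative of the truncated radial stretching and the area estimate. -/

set_option autoImplicit false

open Set Filter Topology MeasureTheory Metric
open scoped NNReal RealInnerProductSpace ENNReal ContDiff

namespace Pool.Agent.TH335.QC

variable {E : Type*} [NormedAddCommGroup E] [InnerProductSpace ℝ E]

lemma hasFDerivAt_pow_radial {b R : ℝ} (hR : 0 < R) {y : E} (hy : y ≠ 0) :
    ∃ A : E →L[ℝ] E, HasFDerivAt (fun y : E => ((R / ‖y‖) ^ b) • y) A y ∧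
      ∀ v, A v = ((R / ‖y‖) ^ b) • (v - (b * ⟪‖y‖⁻¹ • y, v⟫) • (‖y‖⁻¹ • y)) := by
  have hn : 0 < ‖y‖ := norm_pos_iff.mpr hy
  have h1 : HasFDerivAt (fun y : E => ‖y‖^2) ((2:ℕ) • (innerSL ℝ y)) y :=
    (hasStrictFDerivAt_norm_sq y).hasFDerivAt
  have h2 : HasFDerivAt (fun y : E => Real.sqrt (‖y‖^2))
      ((1 / (2 * Real.sqrt (‖y‖^2))) • ((2:ℕ) • (innerSL ℝ y))) y :=
    h1.sqrt (by positivity)
  have h3 : (fun y : E => Real.sqrt (‖y‖^2)) = fun y => ‖y‖ := by
    funext z; exact Real.sqrt_sq (norm_nonneg z)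
  rw [h3, Real.sqrt_sq hn.le] at h2
  have h4 : HasDerivAt (fun t : ℝ => R / t) (-(R / ‖y‖^2)) ‖y‖ := by
    have := (hasDerivAt_inv hn.ne').const_mul R
    rw [mul_neg] at this
    exact this
  have h4' : HasDerivAt (fun t : ℝ => (R / t) ^ b)
      (-(R / ‖y‖^2) * b * (R / ‖y‖) ^ (b - 1)) ‖y‖ :=
    h4.rpow_const (Or.inl (div_pos hR hn).ne')
  have h5 := h4'.comp_hasFDerivAt y h2
  have h6 := h5.smul (hasFDerivAt_id y)
  refine ⟨_, h6, ?_⟩
  intro v
  have h7 : (R / ‖y‖) ^ (b - 1) = (R / ‖y‖) ^ b / (R / ‖y‖) := by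
    rw [Real.rpow_sub (div_pos hR hn), Real.rpow_one]
  simp only [Function.comp_apply, id, _root_.add_apply, _root_.smul_apply,
    ContinuousLinearMap.id_apply, ContinuousLinearMap.smulRight_apply, innerSL_apply_apply]
  simp only [smul_eq_mul, two_nsmul, real_inner_smul_left, smul_smul, smul_sub]
  rw [h7, sub_eq_add_neg (((R / ‖y‖) ^ b) • v), ← neg_smul]
  congr 2
  field_simp
  ring

section mat

lemma mat_norm {A : E →L[ℝ] E} {s b : ℝ} {u : E} (hs : 0 < s) (hb : 0 ≤ b) (hb1 : b ≤ 1)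
    (hu : ‖u‖ = 1) (hA : ∀ v, A v = s • (v - (b * ⟪u, v⟫) • u)) : ‖A‖ ≤ s := by
  apply ContinuousLinearMap.opNorm_le_bound _ hs.le
  intro v
  rw [hA, norm_smul, Real.norm_of_nonneg hs.le]
  gcongr
  apply le_of_sq_le_sq _ (norm_nonneg v)
  rw [← real_inner_self_eq_norm_sq, inner_sub_left, inner_sub_right, inner_sub_right]
  simp only [inner_smul_left, inner_smul_right, real_inner_self_eq_norm_sq, hu]
  rw [real_inner_comm u v]
  simp only [conj_trivial]
  have : 0 ≤ b * (2 - b) * ⟪u, v⟫^2 := by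
    apply mul_nonneg (mul_nonneg (by linarith) (by linarith)) (sq_nonneg _)
  nlinarith

lemma mat_det [FiniteDimensional ℝ E] {A : E →L[ℝ] E} {s b : ℝ} {u : E}
    (hu : ‖u‖ = 1) (hA : ∀ v, A v = s • (v - (b * ⟪u, v⟫) • u)) :
    A.det = s ^ Module.finrank ℝ E * (1 - b) := by
  let f : Module.Dual ℝ E := (-b) • (innerSL ℝ u : E →L[ℝ] ℝ).toLinearMap
  have h1 : (A : E →ₗ[ℝ] E) = s • (LinearMap.transvection f u) := by
    ext v
    simp only [ContinuousLinearMap.coe_coe, LinearMap.smul_apply,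
      LinearMap.transvection.apply]
    rw [hA]
    change _ = s • (v + f v • u)
    have hf : f v = -b * ⟪u, v⟫ := by
      change (-b) • ⟪u, v⟫ = _
      rw [smul_eq_mul]
    rw [hf, sub_eq_add_neg, ← neg_smul, neg_mul]
  rw [ContinuousLinearMap.det, h1, LinearMap.det_smul, LinearMap.transvection.det]
  have hf : f u = -b := by
    change (-b) • ⟪u, u⟫ = _
    rw [real_inner_self_eq_norm_sq, hu]
    simp
  rw [hf]
  ring

end mat

variable [FiniteDimensional ℝ E]

/-- the pointwise facts about the derivative -/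
lemma good {b r R : ℝ} (hb : 0 ≤ b) (hb1 : b < 1) (hr : 0 < r) (hrR : r ≤ R) (c x : E)
    (hx1 : dist x c ≠ r) (hx2 : dist x c ≠ R) :
    ∃ A : E →L[ℝ] E, HasFDerivAt (fun x => S b r R (x - c)) A x ∧
      HasFDerivAt (fun x => g b r R (x - c)) (A - ContinuousLinearMap.id ℝ E) x ∧
      0 < A.det ∧ ‖A‖ ^ Module.finrank ℝ E ≤ 1 / (1 - b) * A.det ∧
      (dist x c < r → A = ((R / r) ^ b) • ContinuousLinearMap.id ℝ E) := by
  have hR := hr.trans_le hrR
  have hb' : 0 < 1 - b := by linarith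
  have key : ∀ A : E →L[ℝ] E, HasFDerivAt (S b r R : E → E) A (x - c) →
      HasFDerivAt (fun x => S b r R (x - c)) A x ∧
      HasFDerivAt (fun x => g b r R (x - c)) (A - ContinuousLinearMap.id ℝ E) x := by
    intro A hA
    have h0 : HasFDerivAt (fun x : E => x - c) (ContinuousLinearMap.id ℝ E) x :=
      (hasFDerivAt_id x).sub_const c
    have h1 : HasFDerivAt (fun x => S b r R (x - c)) A x := by
      have := hA.comp x h0
      rwa [ContinuousLinearMap.comp_id] at this
    refine ⟨h1, ?_⟩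
    have h2 := h1.sub h0
    exact h2
  have dist_eq : ∀ z : E, dist z c = ‖z - c‖ := fun z => dist_eq_norm z c
  rw [dist_eq] at hx1 hx2 ⊢
  set y := x - c with hy
  have hid : ∀ s : ℝ, (s • ContinuousLinearMap.id ℝ E).det = s ^ Module.finrank ℝ E := by
    intro s
    rw [ContinuousLinearMap.det, ContinuousLinearMap.toLinearMap_smul, LinearMap.det_smul]
    simp
  have hidn : ∀ s : ℝ, 0 < s → ‖s • ContinuousLinearMap.id ℝ E‖ ≤ s := by
    intro s hs
    apply ContinuousLinearMap.opNorm_le_bound _ hs.le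
    intro v
    simp [norm_smul, abs_of_pos hs]
  rcases lt_or_gt_of_ne hx1 with h | h
  · -- inside
    have hs : 0 < (R / r) ^ b := Real.rpow_pos_of_pos (div_pos hR hr) _
    have hA : HasFDerivAt (S b r R : E → E) (((R / r) ^ b) • ContinuousLinearMap.id ℝ E) y := by
      have h1 : HasFDerivAt (fun z : E => ((R / r) ^ b) • z)
          (((R / r) ^ b) • ContinuousLinearMap.id ℝ E) y := (hasFDerivAt_id y).const_smul _
      refine h1.congr_of_eventuallyEq ?_
      have : ∀ᶠ z in 𝓝 y, ‖z‖ < r := continuous_norm.continuousAt.eventually (gt_mem_nhds h)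
      filter_upwards [this] with z hz
      exact S_in hrR hz.le
    obtain ⟨h1, h2⟩ := key _ hA
    refine ⟨_, h1, h2, ?_, ?_, fun _ => rfl⟩
    · rw [hid]; positivity
    · rw [hid]
      have h3 : 1 ≤ 1 / (1 - b) := by rw [le_div_iff₀ hb']; linarith
      calc ‖((R / r) ^ b) • ContinuousLinearMap.id ℝ E‖ ^ Module.finrank ℝ E
          ≤ ((R / r) ^ b) ^ Module.finrank ℝ E := by
            gcongr; exact hidn _ hs
        _ ≤ _ := by
            have : 0 < ((R / r) ^ b) ^ Module.finrank ℝ E := by positivity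
            nlinarith
  rcases lt_or_gt_of_ne hx2 with h' | h'
  · -- middle
    have hy0 : y ≠ 0 := by
      intro h0; rw [h0, norm_zero] at h; linarith
    have hn : 0 < ‖y‖ := norm_pos_iff.mpr hy0
    obtain ⟨A, hA, hAv⟩ := hasFDerivAt_pow_radial (b := b) hR hy0
    have hs : 0 < (R / ‖y‖) ^ b := Real.rpow_pos_of_pos (div_pos hR hn) _
    have hA' : HasFDerivAt (S b r R : E → E) A y := by
      refine hA.congr_of_eventuallyEq ?_
      have e1 : ∀ᶠ z in 𝓝 y, ‖z‖ < R := continuous_norm.continuousAt.eventually (gt_mem_nhds h')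
      have e2 : ∀ᶠ z in 𝓝 y, r < ‖z‖ := continuous_norm.continuousAt.eventually (lt_mem_nhds h)
      filter_upwards [e1, e2] with z hz1 hz2
      unfold S
      rw [lam_mid hz2.le hz1.le]
    have hu : ‖‖y‖⁻¹ • y‖ = 1 := by
      rw [norm_smul, norm_inv, norm_norm, inv_mul_cancel₀ hn.ne']
    obtain ⟨h1, h2⟩ := key _ hA'
    have hdet := mat_det hu hAv
    have hnorm := mat_norm hs hb hb1.le hu hAv
    refine ⟨A, h1, h2, ?_, ?_, fun h3 => absurd h3 (not_lt.mpr h.le)⟩
    · rw [hdet]; positivity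
    · rw [hdet]
      calc ‖A‖ ^ Module.finrank ℝ E ≤ ((R / ‖y‖) ^ b) ^ Module.finrank ℝ E := by gcongr
        _ = _ := by field_simp
  · -- outside
    have hA : HasFDerivAt (S b r R : E → E) (ContinuousLinearMap.id ℝ E) y := by
      refine (hasFDerivAt_id y).congr_of_eventuallyEq ?_
      have : ∀ᶠ z in 𝓝 y, R < ‖z‖ := continuous_norm.continuousAt.eventually (lt_mem_nhds h')
      filter_upwards [this] with z hz
      exact S_out hr hrR hz.le
    obtain ⟨h1, h2⟩ := key _ hA
    have hdet : (ContinuousLinearMap.id ℝ E).det = 1 := by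
      rw [ContinuousLinearMap.det]; simp
    refine ⟨_, h1, h2, ?_, ?_, fun h3 => absurd h3 (not_lt.mpr h.le)⟩
    · rw [hdet]; exact one_pos
    · rw [hdet, mul_one]
      have h3 : 1 ≤ 1 / (1 - b) := by rw [le_div_iff₀ hb']; linarith
      calc ‖ContinuousLinearMap.id ℝ E‖ ^ Module.finrank ℝ E ≤ 1 ^ Module.finrank ℝ E := by
            gcongr; exact ContinuousLinearMap.norm_id_le
        _ = 1 := one_pow _
        _ ≤ _ := h3

variable [MeasurableSpace E] [BorelSpace E]

lemma ae_good {r R : ℝ} (hr : 0 < r) (hrR : r ≤ R) (c : E) :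
    ∀ᵐ x : E, dist x c ≠ r ∧ dist x c ≠ R := by
  have hR := hr.trans_le hrR
  have h1 : (volume : Measure E) (sphere c r) = 0 := Measure.addHaar_sphere_of_ne_zero _ c hr.ne'
  have h2 : (volume : Measure E) (sphere c R) = 0 := Measure.addHaar_sphere_of_ne_zero _ c hR.ne'
  filter_upwards [measure_eq_zero_iff_ae_notMem.mp h1, measure_eq_zero_iff_ae_notMem.mp h2]
    with x hx1 hx2
  exact ⟨hx1, hx2⟩

lemma lint_ball {b r R : ℝ} (hb : 0 ≤ b) (hb1 : b < 1) (hr : 0 < r) (hrR : r ≤ R) (c : E) :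
    ∫⁻ x in closedBall c R, ‖ContinuousLinearMap.id ℝ E +
        fderiv ℝ (fun x => g b r R (x - c)) x‖ₑ ^ Module.finrank ℝ E ≤
      ENNReal.ofReal (1 / (1 - b)) * volume (closedBall c R) := by
  have hR := hr.trans_le hrR
  have hb' : 0 < 1 - b := by linarith
  set s : Set E := closedBall c R \ (sphere c r ∪ sphere c R) with hs
  have hsm : MeasurableSet s :=
    isClosed_closedBall.measurableSet.diff
      (isClosed_sphere.measurableSet.union isClosed_sphere.measurableSet)
  have hae : closedBall c R =ᵐ[volume] s := by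
    filter_upwards [ae_good hr hrR c] with x hx
    apply propext
    constructor
    · intro h
      refine ⟨h, ?_⟩
      rintro (h1 | h1)
      · exact hx.1 h1
      · exact hx.2 h1
    · intro h; exact h.1
  rw [setLIntegral_congr hae]
  have hgood : ∀ x ∈ s, dist x c ≠ r ∧ dist x c ≠ R := by
    intro x hx
    exact ⟨fun h => hx.2 (Or.inl h), fun h => hx.2 (Or.inr h)⟩
  have h1 : ∫⁻ x in s, ENNReal.ofReal |(fderiv ℝ (fun x => S b r R (x - c)) x).det| =
      volume ((fun x => S b r R (x - c)) '' s) := by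
    apply lintegral_abs_det_fderiv_eq_addHaar_image (volume : Measure E) hsm
    · intro x hx
      obtain ⟨A, hA, -⟩ := good hb hb1 hr hrR c x (hgood x hx).1 (hgood x hx).2
      rw [hA.fderiv]
      exact hA.hasFDerivWithinAt
    · apply Function.Injective.injOn
      intro x y hxy
      have := S_inj hb1 hr hrR hxy
      exact sub_left_injective this
  have h2 : volume ((fun x => S b r R (x - c)) '' s) ≤ volume (closedBall c R) := by
    calc volume ((fun x => S b r R (x - c)) '' s) ≤ volume (closedBall (0:E) R) := by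
          apply measure_mono
          rintro _ ⟨x, hx, rfl⟩
          rw [mem_closedBall_zero_iff]
          apply S_norm_le hb1 hr hrR
          rw [← dist_eq_norm]
          exact hx.1
      _ = _ := by rw [Measure.addHaar_closedBall_center, ← Measure.addHaar_closedBall_center volume c]
  calc ∫⁻ x in s, ‖ContinuousLinearMap.id ℝ E +
        fderiv ℝ (fun x => g b r R (x - c)) x‖ₑ ^ Module.finrank ℝ E
      ≤ ∫⁻ x in s, ENNReal.ofReal (1 / (1 - b)) *
          ENNReal.ofReal |(fderiv ℝ (fun x => S b r R (x - c)) x).det| := by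
        apply setLIntegral_mono' hsm
        intro x hx
        obtain ⟨A, hA, hA2, hA3, hA4, -⟩ := good hb hb1 hr hrR c x (hgood x hx).1 (hgood x hx).2
        rw [hA.fderiv, hA2.fderiv, add_sub_cancel, ← ENNReal.ofReal_mul (by positivity),
          abs_of_pos hA3, ← ofReal_norm, ← ENNReal.ofReal_pow (norm_nonneg _)]
        exact ENNReal.ofReal_le_ofReal hA4
    _ = ENNReal.ofReal (1 / (1 - b)) *
          ∫⁻ x in s, ENNReal.ofReal |(fderiv ℝ (fun x => S b r R (x - c)) x).det| :=
        lintegral_const_mul' _ _ ENNReal.ofReal_ne_top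
    _ ≤ _ := by rw [h1]; gcongr

end Pool.Agent.TH335.QC
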