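import Mathlib
import Pool.Agent.TH335.QCb

/-! Gluing the truncated radial stretchings over a disjoint family of closed balls. -/

set_option autoImplicit false

open Set Filter Topology MeasureTheory Metric
open scoped NNReal RealInnerProductSpace ENNReal ContDiff

namespace Pool.Agent.TH335.QC

/-- a disjoint family of balls with truncation radii -/
structure Fam (ι : Type*) (E : Type*) [NormedAddCommGroup E] where
  c : ι → E
  r : ι → ℝ
  R : ι → ℝ
  b : ℝ
  α : ℝ
  hb0 : 0 ≤ b
  hb1 : b < 1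
  hα0 : 0 < α
  hα1 : α < 1
  hαb : 1 - α < b
  hr : ∀ i, 0 < r i
  hrR : ∀ i, r i ≤ R i
  hR1 : ∀ i, R i ≤ 1
  hRr : ∀ i, R i ^ b ≤ r i ^ (b - (1 - α))
  disj : ∀ i j, i ≠ j → Disjoint (closedBall (c i) (R i)) (closedBall (c j) (R j))

variable {ι : Type*} {E : Type*} [NormedAddCommGroup E] [InnerProductSpace ℝ E]

namespace Fam

variable (P : Fam ι E)

omit [InnerProductSpace ℝ E] in
lemma hR (i : ι) : 0 < P.R i := (P.hr i).trans_le (P.hrR i)

/-- the displacement attached to one ball -/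
noncomputable def gi (i : ι) (x : E) : E := g P.b (P.r i) (P.R i) (x - P.c i)

/-- the total displacement -/
noncomputable def G (x : E) : E := ∑' i, P.gi i x

/-- the glued map -/
noncomputable def F (x : E) : E := x + P.G x

lemma gi_out {i : ι} {x : E} (h : x ∉ closedBall (P.c i) (P.R i)) : P.gi i x = 0 := by
  rw [mem_closedBall, dist_eq_norm, not_le] at h
  exact g_out (P.hr i) (P.hrR i) h.le

omit [InnerProductSpace ℝ E] in
lemma notMem {i j : ι} (hij : j ≠ i) {x : E} (h : x ∈ closedBall (P.c i) (P.R i)) :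
    x ∉ closedBall (P.c j) (P.R j) := fun h' =>
  Set.disjoint_left.mp (P.disj j i hij) h' h

lemma G_in {i : ι} {x : E} (h : x ∈ closedBall (P.c i) (P.R i)) : P.G x = P.gi i x :=
  tsum_eq_single i (fun _ hj => P.gi_out (P.notMem hj h))

lemma G_out {x : E} (h : ∀ i, x ∉ closedBall (P.c i) (P.R i)) : P.G x = 0 := by
  unfold G
  rw [tsum_congr (fun i => P.gi_out (h i)), tsum_zero]

lemma F_in {i : ι} {x : E} (h : x ∈ closedBall (P.c i) (P.R i)) :
    P.F x = P.c i + S P.b (P.r i) (P.R i) (x - P.c i) := by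
  unfold F
  rw [P.G_in h]
  unfold gi g
  abel

lemma F_out {x : E} (h : ∀ i, x ∉ closedBall (P.c i) (P.R i)) : P.F x = x := by
  unfold F
  rw [P.G_out h, add_zero]

lemma F_mem {i : ι} {x : E} (h : x ∈ closedBall (P.c i) (P.R i)) :
    P.F x ∈ closedBall (P.c i) (P.R i) := by
  rw [P.F_in h, mem_closedBall, dist_eq_norm, add_sub_cancel_left]
  apply S_norm_le P.hb1 (P.hr i) (P.hrR i)
  rwa [mem_closedBall, dist_eq_norm] at h

lemma F_inj : Function.Injective P.F := by
  intro x y hxy
  by_cases hx : ∃ i, x ∈ closedBall (P.c i) (P.R i)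
  · obtain ⟨i, hi⟩ := hx
    by_cases hy : ∃ j, y ∈ closedBall (P.c j) (P.R j)
    · obtain ⟨j, hj⟩ := hy
      by_cases hij : j = i
      · subst hij
        rw [P.F_in hi, P.F_in hj] at hxy
        have := S_inj P.hb1 (P.hr j) (P.hrR j) (add_left_cancel hxy)
        exact sub_left_injective this
      · exfalso
        have h1 := P.F_mem hi
        have h2 := P.F_mem hj
        rw [← hxy] at h2
        exact P.notMem hij h1 h2
    · push Not at hy
      exfalso
      have h1 := P.F_mem hi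
      rw [hxy, P.F_out hy] at h1
      exact hy i h1
  · push Not at hx
    by_cases hy : ∃ j, y ∈ closedBall (P.c j) (P.R j)
    · obtain ⟨j, hj⟩ := hy
      exfalso
      have h1 := P.F_mem hj
      rw [← hxy, P.F_out hx] at h1
      exact hx j h1
    · push Not at hy
      rwa [P.F_out hx, P.F_out hy] at hxy

lemma F_surj : Function.Surjective P.F := by
  intro z
  by_cases hz : ∃ i, z ∈ closedBall (P.c i) (P.R i)
  · obtain ⟨i, hi⟩ := hz
    have hi' := hi
    rw [mem_closedBall, dist_eq_norm] at hi'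
    obtain ⟨y, hy, hyz⟩ := S_surj (b := P.b) (P.hr i) (P.hrR i) hi'
    refine ⟨P.c i + y, ?_⟩
    rw [P.F_in (i := i), add_sub_cancel_left, hyz, add_sub_cancel]
    rw [mem_closedBall, dist_eq_norm, add_sub_cancel_left]
    exact hy
  · push Not at hz
    exact ⟨z, P.F_out hz⟩

lemma gi_hol (i : ι) (x y : E) : ‖P.gi i x - P.gi i y‖ ≤ 6 * ‖x - y‖ ^ P.α := by
  unfold gi
  have := g_hol P.hb0 P.hb1 P.hα0 P.hα1 P.hαb (P.hr i) (P.hrR i) (P.hRr i)
    (x - P.c i) (y - P.c i)
  rwa [sub_sub_sub_cancel_right] at this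

lemma G_hol (x y : E) : ‖P.G x - P.G y‖ ≤ 12 * ‖x - y‖ ^ P.α := by
  have h0 : 0 ≤ ‖x - y‖ ^ P.α := by positivity
  by_cases hx : ∃ i, x ∈ closedBall (P.c i) (P.R i)
  · obtain ⟨i, hi⟩ := hx
    rw [P.G_in hi]
    by_cases hy : ∃ j, y ∈ closedBall (P.c j) (P.R j)
    · obtain ⟨j, hj⟩ := hy
      rw [P.G_in hj]
      by_cases hij : j = i
      · subst hij
        have := P.gi_hol j x y
        linarith
      · have h1 := P.gi_hol i x y
        have h2 := P.gi_hol j x y
        rw [P.gi_out (P.notMem (Ne.symm hij) hj)] at h1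
        rw [P.gi_out (P.notMem hij hi)] at h2
        rw [sub_zero] at h1
        rw [zero_sub, norm_neg] at h2
        have := norm_sub_le (P.gi i x) (P.gi j y)
        linarith
    · push Not at hy
      have h1 := P.gi_hol i x y
      rw [P.G_out hy]
      rw [P.gi_out (hy i)] at h1
      linarith
  · push Not at hx
    rw [P.G_out hx]
    by_cases hy : ∃ j, y ∈ closedBall (P.c j) (P.R j)
    · obtain ⟨j, hj⟩ := hy
      have h1 := P.gi_hol j x y
      rw [P.G_in hj]
      rw [P.gi_out (hx j)] at h1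
      linarith
    · push Not at hy
      rw [P.G_out hy, sub_zero, norm_zero]
      linarith

lemma F_hol (x y : E) : ‖P.F x - P.F y‖ ≤ ‖x - y‖ + 12 * ‖x - y‖ ^ P.α := by
  have e : P.F x - P.F y = (x - y) + (P.G x - P.G y) := by
    unfold F; abel
  rw [e]
  exact (norm_add_le _ _).trans (by have := P.G_hol x y; linarith)

lemma G_cont : Continuous P.G := by
  rw [continuous_iff_continuousAt]
  intro x
  rw [ContinuousAt, tendsto_iff_norm_sub_tendsto_zero]
  have h1 : Tendsto (fun y => 12 * ‖y - x‖ ^ P.α) (𝓝 x) (𝓝 (12 * ‖x - x‖ ^ P.α)) := by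
    apply Tendsto.const_mul
    apply Tendsto.rpow_const
    · exact (continuous_id.sub continuous_const).norm.tendsto x
    · exact Or.inr P.hα0.le
  rw [sub_self, norm_zero, Real.zero_rpow P.hα0.ne', mul_zero] at h1
  exact squeeze_zero (fun _ => norm_nonneg _) (fun y => P.G_hol y x) h1

lemma F_cont : Continuous P.F := continuous_id.add P.G_cont

lemma G_norm (x : E) : ‖P.G x‖ ≤ 2 := by
  by_cases hx : ∃ i, x ∈ closedBall (P.c i) (P.R i)
  · obtain ⟨i, hi⟩ := hx
    have h1 := P.F_mem hi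
    have e : P.G x = (P.F x - P.c i) - (x - P.c i) := by unfold F; abel
    rw [mem_closedBall, dist_eq_norm] at hi h1
    rw [e]
    have := norm_sub_le (P.F x - P.c i) (x - P.c i)
    have := P.hR1 i
    linarith
  · push Not at hx
    rw [P.G_out hx, norm_zero]; norm_num

lemma F_homeo [FiniteDimensional ℝ E] : IsHomeomorph P.F := by
  have : ProperSpace E := FiniteDimensional.proper ℝ E
  rw [isHomeomorph_iff_continuous_isClosedMap_bijective]
  refine ⟨P.F_cont, ?_, P.F_inj, P.F_surj⟩
  have h : IsProperMap P.F := by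
    rw [isProperMap_iff_tendsto_cocompact]
    refine ⟨P.F_cont, ?_⟩
    rw [← Metric.cobounded_eq_cocompact, ← tendsto_norm_atTop_iff_cobounded]
    have h1 : Tendsto (fun x : E => ‖x‖ - 2) (Bornology.cobounded E) atTop :=
      tendsto_atTop_add_const_right _ _ tendsto_norm_cobounded_atTop
    refine tendsto_atTop_mono (fun x => ?_) h1
    have e : x = P.F x - P.G x := by unfold F; abel
    have h2 : ‖x‖ ≤ ‖P.F x‖ + ‖P.G x‖ := by
      nth_rewrite 1 [e]
      exact norm_sub_le _ _
    have := P.G_norm x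
    linarith
  exact h.isClosedMap

/-- the derivative of the displacement -/
noncomputable def DG (x : E) : E →L[ℝ] E := ∑' i, fderiv ℝ (P.gi i) x

/-- the derivative of the glued map -/
noncomputable def DF (x : E) : E →L[ℝ] E := ContinuousLinearMap.id ℝ E + P.DG x

lemma fderiv_gi_out {i : ι} {x : E} (h : x ∉ closedBall (P.c i) (P.R i)) :
    fderiv ℝ (P.gi i) x = 0 := by
  have h1 : P.gi i =ᶠ[𝓝 x] (fun _ => 0) := by
    filter_upwards [isClosed_closedBall.isOpen_compl.mem_nhds h] with y hy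
    exact P.gi_out hy
  rw [h1.fderiv_eq]
  simp

lemma DG_in {i : ι} {x : E} (h : x ∈ closedBall (P.c i) (P.R i)) :
    P.DG x = fderiv ℝ (P.gi i) x :=
  tsum_eq_single i (fun _ hj => P.fderiv_gi_out (P.notMem hj h))

lemma DG_out {x : E} (h : ∀ i, x ∉ closedBall (P.c i) (P.R i)) : P.DG x = 0 := by
  unfold DG
  rw [tsum_congr (fun i => P.fderiv_gi_out (h i)), tsum_zero]

lemma gi_lip (i : ι) : ∃ C : ℝ≥0, LipschitzWith C (P.gi i) := by
  have h0 : 0 ≤ 2 * (P.R i / P.r i) ^ P.b + 1 := by
    have := (P.hr i).le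
    have := (P.hR i).le
    positivity
  refine ⟨Real.toNNReal (2 * (P.R i / P.r i) ^ P.b + 1), ?_⟩
  apply LipschitzWith.of_dist_le_mul
  intro x y
  rw [dist_eq_norm, dist_eq_norm, Real.coe_toNNReal _ h0]
  unfold gi g
  have h1 := S_lip P.hb0 P.hb1.le (P.hr i) (P.hrR i) (x - P.c i) (y - P.c i)
  rw [sub_sub_sub_cancel_right] at h1
  have e : S P.b (P.r i) (P.R i) (x - P.c i) - (x - P.c i) -
      (S P.b (P.r i) (P.R i) (y - P.c i) - (y - P.c i)) =
      (S P.b (P.r i) (P.R i) (x - P.c i) - S P.b (P.r i) (P.R i) (y - P.c i)) - (x - y) := by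
    abel
  rw [e]
  refine (norm_sub_le _ _).trans ?_
  linarith

end Fam

end Pool.Agent.TH335.QC
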