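import Mathlib
import Pool.Agent.TH335.QCc
import Pool.Agent.Helper930.LipWD

/-! The weak derivative of the glued map. -/

set_option autoImplicit false

open Set Filter Topology MeasureTheory Metric
open scoped NNReal RealInnerProductSpace ENNReal ContDiff
open Pool.Agent.Helper930.WD

namespace Pool.Agent.TH335.QC

namespace Fam

variable {ι : Type*} {E : Type*} [NormedAddCommGroup E] [InnerProductSpace ℝ E]
  [FiniteDimensional ℝ E] [MeasurableSpace E] [BorelSpace E] (P : Fam ι E)

/-- almost every point of one ball is good -/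
lemma ae_gi (i : ι) : ∀ᵐ x : E, x ∈ closedBall (P.c i) (P.R i) →
    0 < (P.DF x).det ∧ ‖P.DF x‖ ^ Module.finrank ℝ E ≤ 1 / (1 - P.b) * (P.DF x).det := by
  filter_upwards [ae_good (P.hr i) (P.hrR i) (P.c i)] with x hx hxi
  obtain ⟨A, -, h2, h3, h4, -⟩ := good P.hb0 P.hb1 (P.hr i) (P.hrR i) (P.c i) x hx.1 hx.2
  have e : P.DF x = A := by
    unfold DF
    rw [P.DG_in hxi]
    have : fderiv ℝ (P.gi i) x = A - ContinuousLinearMap.id ℝ E := h2.fderiv
    rw [this, add_sub_cancel]
  rw [e]
  exact ⟨h3, h4⟩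

omit [MeasurableSpace E] [BorelSpace E] in
lemma DF_core {i : ι} {x : E} (h : dist x (P.c i) < P.r i) :
    P.DF x = ((P.R i / P.r i) ^ P.b) • ContinuousLinearMap.id ℝ E := by
  have hxi : x ∈ closedBall (P.c i) (P.R i) := by
    rw [mem_closedBall]; exact h.le.trans (P.hrR i)
  obtain ⟨A, -, h2, -, -, h5⟩ := good P.hb0 P.hb1 (P.hr i) (P.hrR i) (P.c i) x h.ne
    (h.trans_le (P.hrR i)).ne
  unfold DF
  rw [P.DG_in hxi]
  have : fderiv ℝ (P.gi i) x = A - ContinuousLinearMap.id ℝ E := h2.fderiv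
  rw [this, add_sub_cancel, h5 h]

lemma ae_qc [Countable ι] : ∀ᵐ x : E, 0 < (P.DF x).det ∧
    ‖P.DF x‖ ^ Module.finrank ℝ E ≤ 1 / (1 - P.b) * (P.DF x).det := by
  filter_upwards [ae_all_iff.mpr P.ae_gi] with x hx
  by_cases h : ∃ i, x ∈ closedBall (P.c i) (P.R i)
  · obtain ⟨i, hi⟩ := h
    exact hx i hi
  · push Not at h
    have hb : 0 < 1 - P.b := by have := P.hb1; linarith
    have e : P.DF x = ContinuousLinearMap.id ℝ E := by
      unfold DF
      rw [P.DG_out h, add_zero]
    have hdet : (ContinuousLinearMap.id ℝ E).det = 1 := by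
      rw [ContinuousLinearMap.det]; simp
    rw [e, hdet]
    refine ⟨one_pos, ?_⟩
    have h3 : 1 ≤ 1 / (1 - P.b) := by
      rw [le_div_iff₀ hb]; have := P.hb0; linarith
    calc ‖ContinuousLinearMap.id ℝ E‖ ^ Module.finrank ℝ E ≤ 1 ^ Module.finrank ℝ E := by
          gcongr; exact ContinuousLinearMap.norm_id_le
      _ = 1 := one_pow _
      _ ≤ _ := by rw [mul_one]; exact h3

lemma measurable_DG [Countable ι] : Measurable P.DG := by
  have : CompleteSpace E := FiniteDimensional.complete ℝ E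
  have h1 : ∀ s : Finset ι, Measurable (fun x => ∑ i ∈ s, fderiv ℝ (P.gi i) x) := by
    intro s
    exact Finset.measurable_sum s (fun i _ => measurable_fderiv ℝ (P.gi i))
  refine measurable_of_tendsto_metrizable' (atTop : Filter (Finset ι)) h1 ?_
  rw [tendsto_pi_nhds]
  intro x
  have h2 : Summable (fun i => fderiv ℝ (P.gi i) x) := by
    by_cases h : ∃ i, x ∈ closedBall (P.c i) (P.R i)
    · obtain ⟨i, hi⟩ := h
      apply summable_of_ne_finset_zero (s := {i})
      intro j hj
      rw [Finset.mem_singleton] at hj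
      exact P.fderiv_gi_out (P.notMem hj hi)
    · push Not at h
      apply summable_of_ne_finset_zero (s := ∅)
      intro j _
      exact P.fderiv_gi_out (h j)
  exact h2.hasSum

lemma measurable_DF [Countable ι] : Measurable P.DF := by
  unfold DF
  exact P.measurable_DG.const_add _

/-- the `d`-th power integral over one ball -/
lemma lint_DF_ball (i : ι) :
    ∫⁻ x in closedBall (P.c i) (P.R i), ‖P.DF x‖ₑ ^ Module.finrank ℝ E ≤
      ENNReal.ofReal (1 / (1 - P.b)) * volume (closedBall (P.c i) (P.R i)) := by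
  refine le_trans (le_of_eq ?_) (lint_ball P.hb0 P.hb1 (P.hr i) (P.hrR i) (P.c i))
  apply setLIntegral_congr_fun isClosed_closedBall.measurableSet
  intro x hx
  change ‖P.DF x‖ₑ ^ Module.finrank ℝ E = _
  unfold DF
  rw [P.DG_in hx]
  rfl

lemma lint_gi (hd : Module.finrank ℝ E ≠ 0) (i : ι) :
    ∫⁻ x, ‖fderiv ℝ (P.gi i) x‖ₑ ≤
      (2 + ENNReal.ofReal (1 / (1 - P.b))) * volume (closedBall (P.c i) (P.R i)) := by
  have h0 : ∫⁻ x, ‖fderiv ℝ (P.gi i) x‖ₑ =
      ∫⁻ x in closedBall (P.c i) (P.R i), ‖fderiv ℝ (P.gi i) x‖ₑ := by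
    rw [← lintegral_indicator isClosed_closedBall.measurableSet]
    congr 1
    funext x
    by_cases h : x ∈ closedBall (P.c i) (P.R i)
    · rw [indicator_of_mem h]
    · rw [indicator_of_notMem h, P.fderiv_gi_out h, enorm_zero]
  rw [h0]
  calc ∫⁻ x in closedBall (P.c i) (P.R i), ‖fderiv ℝ (P.gi i) x‖ₑ
      ≤ ∫⁻ x in closedBall (P.c i) (P.R i), (2 + ‖P.DF x‖ₑ ^ Module.finrank ℝ E) := by
        apply setLIntegral_mono' isClosed_closedBall.measurableSet
        intro x hx
        have e : fderiv ℝ (P.gi i) x = P.DF x - ContinuousLinearMap.id ℝ E := by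
          unfold DF
          rw [P.DG_in hx, add_sub_cancel_left]
        rw [e]
        have h1 : ‖ContinuousLinearMap.id ℝ E‖ₑ ≤ 1 := by
          rw [← ofReal_norm, ← ENNReal.ofReal_one]
          exact ENNReal.ofReal_le_ofReal ContinuousLinearMap.norm_id_le
        have h2 : ‖P.DF x‖ₑ ≤ 1 + ‖P.DF x‖ₑ ^ Module.finrank ℝ E := by
          rcases le_total ‖P.DF x‖ₑ 1 with h | h
          · exact h.trans le_self_add
          · exact (le_self_pow₀ h hd).trans le_add_self
        calc ‖P.DF x - ContinuousLinearMap.id ℝ E‖ₑ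
            ≤ ‖P.DF x‖ₑ + ‖ContinuousLinearMap.id ℝ E‖ₑ := enorm_sub_le
          _ ≤ (1 + ‖P.DF x‖ₑ ^ Module.finrank ℝ E) + 1 := by gcongr
          _ = 2 + ‖P.DF x‖ₑ ^ Module.finrank ℝ E := by
              rw [add_comm, ← add_assoc, one_add_one_eq_two]
    _ = 2 * volume (closedBall (P.c i) (P.R i)) +
        ∫⁻ x in closedBall (P.c i) (P.R i), ‖P.DF x‖ₑ ^ Module.finrank ℝ E := by
        rw [lintegral_add_left measurable_const, setLIntegral_const]
    _ ≤ _ := by
        rw [add_mul]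
        gcongr
        exact P.lint_DF_ball i

variable [Countable ι] (hV : ∑' i, (volume : Measure E) (closedBall (P.c i) (P.R i)) ≠ ⊤)

omit [Countable ι] in
include hV in
lemma tsum_lint_gi (hd : Module.finrank ℝ E ≠ 0) :
    ∑' i, ∫⁻ x, ‖fderiv ℝ (P.gi i) x‖ₑ ≠ ⊤ := by
  refine ne_top_of_le_ne_top ?_ (ENNReal.tsum_le_tsum (fun i => P.lint_gi hd i))
  rw [ENNReal.tsum_mul_left]
  exact ENNReal.mul_ne_top (by simp) hV

include hV in
lemma DG_integrable (hd : Module.finrank ℝ E ≠ 0) : Integrable P.DG (volume : Measure E) := by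
  have : CompleteSpace E := FiniteDimensional.complete ℝ E
  refine ⟨P.measurable_DG.aestronglyMeasurable, ?_⟩
  have h1 : ∀ x, ‖P.DG x‖ₑ ≤ ∑' i, ‖fderiv ℝ (P.gi i) x‖ₑ := by
    intro x
    by_cases h : ∃ i, x ∈ closedBall (P.c i) (P.R i)
    · obtain ⟨i, hi⟩ := h
      rw [P.DG_in hi]
      exact ENNReal.le_tsum i
    · push Not at h
      have h0 : ‖P.DG x‖ₑ = 0 := by
        rw [← ofReal_norm, P.DG_out h, norm_zero, ENNReal.ofReal_zero]
      rw [h0]
      exact bot_le
  refine lt_of_le_of_lt (lintegral_mono h1) ?_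
  rw [lintegral_tsum (fun i => (measurable_fderiv ℝ (P.gi i)).enorm.aemeasurable)]
  exact (P.tsum_lint_gi hV hd).lt_top

include hV in
/-- finiteness of the `d`-energy on sets of finite measure -/
lemma lint_DF (s : Set E) (hs : volume s ≠ ⊤) :
    ∫⁻ x in s, ‖P.DF x‖ₑ ^ Module.finrank ℝ E ≠ ⊤ := by
  have h1 : s ⊆ (⋃ i, closedBall (P.c i) (P.R i)) ∪
      (s \ ⋃ i, closedBall (P.c i) (P.R i)) := by
    intro x hx
    by_cases h : x ∈ ⋃ i, closedBall (P.c i) (P.R i)
    · exact Or.inl h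
    · exact Or.inr ⟨hx, h⟩
  refine ne_top_of_le_ne_top ?_ ((lintegral_mono_set h1).trans (lintegral_union_le _ _ _))
  apply ENNReal.add_ne_top.mpr
  constructor
  · refine ne_top_of_le_ne_top ?_ (lintegral_iUnion_le _ _)
    refine ne_top_of_le_ne_top ?_ (ENNReal.tsum_le_tsum (fun i => P.lint_DF_ball i))
    rw [ENNReal.tsum_mul_left]
    exact ENNReal.mul_ne_top (by simp) hV
  · have h2 : ∫⁻ x in s \ ⋃ i, closedBall (P.c i) (P.R i), ‖P.DF x‖ₑ ^ Module.finrank ℝ E ≤
        ∫⁻ x in s \ ⋃ i, closedBall (P.c i) (P.R i), 1 := by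
      have hm : MeasurableSet (⋃ i, closedBall (P.c i) (P.R i))ᶜ :=
        (MeasurableSet.iUnion (fun i => isClosed_closedBall.measurableSet)).compl
      have h3 : ∀ᵐ x ∂(volume.restrict (s \ ⋃ i, closedBall (P.c i) (P.R i))),
          x ∈ (⋃ i, closedBall (P.c i) (P.R i))ᶜ := by
        refine (ae_restrict_iff (p := fun x => x ∈ (⋃ i, closedBall (P.c i) (P.R i))ᶜ) hm).mpr ?_
        filter_upwards with x hx using hx.2
      apply lintegral_mono_ae
      filter_upwards [h3] with x hx
      simp only [mem_compl_iff, mem_iUnion, not_exists] at hx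
      have e : P.DF x = ContinuousLinearMap.id ℝ E := by
        unfold DF
        rw [P.DG_out hx, add_zero]
      rw [e]
      apply pow_le_one' 
      rw [← ofReal_norm, ← ENNReal.ofReal_one]
      exact ENNReal.ofReal_le_ofReal ContinuousLinearMap.norm_id_le
    refine ne_top_of_le_ne_top ?_ h2
    rw [setLIntegral_one]
    exact ne_top_of_le_ne_top hs (measure_mono sdiff_subset)

omit [Countable ι] in
include hV in
lemma lint_G : ∑' i, ∫⁻ x, ‖P.gi i x‖ₑ ≠ ⊤ := by
  have h1 : ∀ i, ∫⁻ x, ‖P.gi i x‖ₑ ≤ 2 * volume (closedBall (P.c i) (P.R i)) := by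
    intro i
    calc ∫⁻ x, ‖P.gi i x‖ₑ ≤ ∫⁻ x, (closedBall (P.c i) (P.R i)).indicator (fun _ => 2) x := by
          apply lintegral_mono
          intro x
          by_cases h : x ∈ closedBall (P.c i) (P.R i)
          · change ‖P.gi i x‖ₑ ≤ _
            rw [indicator_of_mem h, ← P.G_in h, ← ofReal_norm,
              show (2:ℝ≥0∞) = ENNReal.ofReal 2 by norm_num]
            exact ENNReal.ofReal_le_ofReal (P.G_norm x)
          · change ‖P.gi i x‖ₑ ≤ _
            rw [indicator_of_notMem h, P.gi_out h, enorm_zero]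
      _ = _ := by
          rw [lintegral_indicator isClosed_closedBall.measurableSet, setLIntegral_const]
  refine ne_top_of_le_ne_top ?_ (ENNReal.tsum_le_tsum h1)
  rw [ENNReal.tsum_mul_left]
  exact ENNReal.mul_ne_top (by simp) hV

include hV in
/-- integration by parts for the displacement -/
lemma ibp_G (hd : Module.finrank ℝ E ≠ 0) {φ : E → ℝ}
    (hφ : ContDiff ℝ ∞ φ) (hc : HasCompactSupport φ) (v : E) :
    ∫ x, (fderiv ℝ φ x v) • P.G x = - ∫ x, φ x • P.DG x v := by
  have : CompleteSpace E := FiniteDimensional.complete ℝ E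
  have hcf : Continuous (fun x => fderiv ℝ φ x v) :=
    (hφ.continuous_fderiv (by norm_num)).clm_apply continuous_const
  have hcs : HasCompactSupport (fun x => fderiv ℝ φ x v) := by
    have := hc.fderiv (𝕜 := ℝ)
    exact this.comp_left (g := fun A : E →L[ℝ] ℝ => A v) (by simp)
  obtain ⟨C1, hC1⟩ := hcs.exists_bound_of_continuous hcf
  obtain ⟨C2, hC2⟩ := hc.exists_bound_of_continuous hφ.continuous
  have e1 : ∀ x, (fderiv ℝ φ x v) • P.G x = ∑' i, (fderiv ℝ φ x v) • P.gi i x := by
    intro x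
    by_cases h : ∃ i, x ∈ closedBall (P.c i) (P.R i)
    · obtain ⟨i, hi⟩ := h
      rw [P.G_in hi, tsum_eq_single i]
      intro j hj
      rw [P.gi_out (P.notMem hj hi), smul_zero]
    · push Not at h
      rw [P.G_out h, tsum_congr (fun i => by rw [P.gi_out (h i), smul_zero]), tsum_zero, smul_zero]
  have e2 : ∀ x, φ x • P.DG x v = ∑' i, φ x • (fderiv ℝ (P.gi i) x v) := by
    intro x
    by_cases h : ∃ i, x ∈ closedBall (P.c i) (P.R i)
    · obtain ⟨i, hi⟩ := h
      rw [P.DG_in hi, tsum_eq_single i]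
      intro j hj
      rw [P.fderiv_gi_out (P.notMem hj hi), _root_.zero_apply, smul_zero]
    · push Not at h
      rw [P.DG_out h, tsum_congr (fun i => by
        rw [P.fderiv_gi_out (h i), _root_.zero_apply, smul_zero]), tsum_zero,
        _root_.zero_apply, smul_zero]
  have hcont : ∀ i, Continuous (P.gi i) := by
    intro i
    obtain ⟨C, hC⟩ := P.gi_lip i
    exact hC.continuous
  simp_rw [e1, e2]
  rw [integral_tsum, integral_tsum, ← tsum_neg]
  · apply tsum_congr
    intro i
    obtain ⟨C, hC⟩ := P.gi_lip i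
    exact ibp_lip hC (hφ.of_le (by norm_num)) hc v
  · intro i
    exact hφ.continuous.aestronglyMeasurable.smul
      (measurable_fderiv_apply_const ℝ (P.gi i) v).aestronglyMeasurable
  · have h1 : ∀ i, ∫⁻ x, ‖φ x • (fderiv ℝ (P.gi i) x v)‖ₑ ≤
        ENNReal.ofReal C2 * ‖v‖ₑ * ∫⁻ x, ‖fderiv ℝ (P.gi i) x‖ₑ := by
      intro i
      rw [← lintegral_const_mul _ (measurable_fderiv ℝ (P.gi i)).enorm]
      apply lintegral_mono
      intro x
      change ‖φ x • (fderiv ℝ (P.gi i) x v)‖ₑ ≤
        ENNReal.ofReal C2 * ‖v‖ₑ * ‖fderiv ℝ (P.gi i) x‖ₑ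
      rw [enorm_smul, mul_assoc, mul_comm ‖v‖ₑ]
      gcongr
      · rw [← ofReal_norm]
        exact ENNReal.ofReal_le_ofReal (hC2 x)
      · exact ContinuousLinearMap.le_opENorm _ _
    refine ne_top_of_le_ne_top ?_ (ENNReal.tsum_le_tsum h1)
    rw [ENNReal.tsum_mul_left]
    exact ENNReal.mul_ne_top (ENNReal.mul_ne_top ENNReal.ofReal_ne_top (by simp))
      (P.tsum_lint_gi hV hd)
  · intro i
    exact (hcf.smul (hcont i)).aestronglyMeasurable
  · have h1 : ∀ i, ∫⁻ x, ‖(fderiv ℝ φ x v) • P.gi i x‖ₑ ≤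
        ENNReal.ofReal C1 * ∫⁻ x, ‖P.gi i x‖ₑ := by
      intro i
      rw [← lintegral_const_mul _ (hcont i).measurable.enorm]
      apply lintegral_mono
      intro x
      change ‖(fderiv ℝ φ x v) • P.gi i x‖ₑ ≤ ENNReal.ofReal C1 * ‖P.gi i x‖ₑ
      rw [enorm_smul]
      gcongr
      rw [← ofReal_norm]
      exact ENNReal.ofReal_le_ofReal (hC1 x)
    refine ne_top_of_le_ne_top ?_ (ENNReal.tsum_le_tsum h1)
    rw [ENNReal.tsum_mul_left]
    exact ENNReal.mul_ne_top ENNReal.ofReal_ne_top (P.lint_G hV)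

include hV in
/-- the weak derivative of the glued map -/
lemma weak (hd : Module.finrank ℝ E ≠ 0) : WeakDerivOn univ P.F P.DF := by
  have : CompleteSpace E := FiniteDimensional.complete ℝ E
  have hDGi := P.DG_integrable hV hd
  refine ⟨?_, ?_, ?_⟩
  · exact (P.F_cont.locallyIntegrable).locallyIntegrableOn _
  · have h1 : LocallyIntegrable P.DF (volume : Measure E) := by
      intro x
      refine ⟨ball x 1, ball_mem_nhds x one_pos, ?_⟩
      refine ⟨P.measurable_DF.aestronglyMeasurable, ?_⟩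
      have h1 : ∀ y, ‖P.DF y‖ₑ ≤ 1 + ‖P.DG y‖ₑ := by
        intro y
        have h2 : ‖P.DF y‖ ≤ 1 + ‖P.DG y‖ := by
          unfold DF
          refine (norm_add_le _ _).trans ?_
          gcongr
          exact ContinuousLinearMap.norm_id_le
        rw [← ofReal_norm, ← ofReal_norm, ← ENNReal.ofReal_one,
          ← ENNReal.ofReal_add zero_le_one (norm_nonneg _)]
        exact ENNReal.ofReal_le_ofReal h2
      refine lt_of_le_of_lt (lintegral_mono h1) ?_
      rw [lintegral_add_left measurable_const, setLIntegral_one]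
      refine ENNReal.add_lt_top.mpr ⟨measure_ball_lt_top, ?_⟩
      exact lt_of_le_of_lt (setLIntegral_le_lintegral _ _) hDGi.2
    exact h1.locallyIntegrableOn _
  · intro φ hφ hc _ v
    have hcf : Continuous (fun x => fderiv ℝ φ x v) :=
      (hφ.continuous_fderiv (by norm_num)).clm_apply continuous_const
    have hcs : HasCompactSupport (fun x => fderiv ℝ φ x v) := by
      have := hc.fderiv (𝕜 := ℝ)
      exact this.comp_left (g := fun A : E →L[ℝ] ℝ => A v) (by simp)
    obtain ⟨C2, hC2⟩ := hc.exists_bound_of_continuous hφ.continuous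
    have h1 := P.ibp_G hV hd hφ hc v
    have h2 : ∫ x : E, (fderiv ℝ φ x v) • x = - ∫ x, φ x • v := by
      have := ibp_lip (LipschitzWith.id : LipschitzWith 1 (id : E → E))
        (hφ.of_le (by norm_num)) hc v
      simpa using this
    have e1 : ∀ x, (fderiv ℝ φ x v) • P.F x = (fderiv ℝ φ x v) • x + (fderiv ℝ φ x v) • P.G x := by
      intro x
      unfold F
      rw [smul_add]
    have e2 : ∀ x, φ x • P.DF x v = φ x • v + φ x • P.DG x v := by
      intro x
      unfold DF
      rw [_root_.add_apply, ContinuousLinearMap.id_apply, smul_add]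
    simp_rw [e1, e2]
    rw [integral_add, integral_add, h1, h2, neg_add]
    · exact (hφ.continuous.smul continuous_const).integrable_of_hasCompactSupport hc.smul_right
    · refine Integrable.mono' (hDGi.norm.const_mul (C2 * ‖v‖)) ?_ ?_
      · exact hφ.continuous.aestronglyMeasurable.smul
          (P.measurable_DG.apply_continuousLinearMap v).aestronglyMeasurable
      · filter_upwards with x
        rw [norm_smul]
        have h3 := hC2 x
        have h5 : 0 ≤ C2 := (norm_nonneg _).trans h3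
        have h4 : ‖P.DG x v‖ ≤ ‖P.DG x‖ * ‖v‖ := ContinuousLinearMap.le_opNorm _ _
        calc ‖φ x‖ * ‖P.DG x v‖ ≤ C2 * (‖P.DG x‖ * ‖v‖) := by gcongr
          _ = C2 * ‖v‖ * ‖P.DG x‖ := by ring
    · exact (hcf.smul continuous_id).integrable_of_hasCompactSupport hcs.smul_right
    · exact (hcf.smul P.G_cont).integrable_of_hasCompactSupport hcs.smul_right

end Fam

end Pool.Agent.TH335.QC
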