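import Mathlib
import Pool.Agent.TH335.QCd

/-! The family of balls. -/

set_option autoImplicit false

open Set Filter Topology MeasureTheory Metric
open scoped NNReal RealInnerProductSpace ENNReal ContDiff
open Pool.Agent.Helper930.WD

namespace Pool.Agent.TH335.QC

variable {E : Type*} [NormedAddCommGroup E] [InnerProductSpace ℝ E]
  [FiniteDimensional ℝ E] [MeasurableSpace E] [BorelSpace E]

lemma exists_family [Nontrivial E] (x0 : E) {ε : ℝ} (hε : 0 < ε) :
    ∃ (U : ℕ → Set E) (ρ : ℕ → ℝ) (t : Set E) (R : E → ℝ), t.Countable ∧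
      (∀ k, IsOpen (U k)) ∧ (∀ k l, k ≠ l → Disjoint (U k) (U l)) ∧ (∀ k, U k ⊆ ball x0 ε) ∧
      (∀ k, 0 < ρ k) ∧ (∀ k, ρ k ≤ 1) ∧
      (∀ δ : ℝ, 0 < δ → ∑' k, ENNReal.ofReal (ρ k ^ (-δ)) * (volume : Measure E) (U k) = ⊤) ∧
      (∀ x ∈ t, 0 < R x ∧ ∃ k, R x < ρ k ∧ closedBall x (R x) ⊆ U k) ∧
      (t.PairwiseDisjoint fun x => closedBall x (R x)) ∧
      (volume : Measure E) ((⋃ k, U k) \ ⋃ x ∈ t, closedBall x (R x)) = 0 := by
  set U : ℕ → Set E := fun k => {x | ε / 2 ^ (k+1) < dist x x0 ∧ dist x x0 < ε / 2 ^ k} with hU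
  have hUo : ∀ k, IsOpen (U k) := by
    intro k
    exact (isOpen_lt continuous_const (continuous_id.dist continuous_const)).inter
      (isOpen_lt (continuous_id.dist continuous_const) continuous_const)
  have hpow : ∀ k l : ℕ, k < l → ε / 2 ^ l ≤ ε / 2 ^ (k+1) := by
    intro k l hkl
    have : (2:ℝ) ^ (k+1) ≤ 2 ^ l := pow_le_pow_right₀ (by norm_num) hkl
    gcongr
  have hUd : ∀ k l, k ≠ l → Disjoint (U k) (U l) := by
    intro k l hkl
    rw [Set.disjoint_left]
    rintro x ⟨h1, h2⟩ ⟨h3, h4⟩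
    rcases lt_or_gt_of_ne hkl with h | h
    · have := hpow k l h; linarith
    · have := hpow l k h; linarith
  have hUb : ∀ k, U k ⊆ ball x0 ε := by
    rintro k x ⟨-, h2⟩
    rw [mem_ball]
    refine h2.trans_le (div_le_self hε.le ?_)
    exact one_le_pow₀ (by norm_num)
  have hUne : ∀ k, (U k).Nonempty := by
    intro k
    obtain ⟨u, hu⟩ := exists_norm_eq (E := E) (zero_le_one' ℝ)
    refine ⟨x0 + (3 / 4 * (ε / 2 ^ k)) • u, ?_⟩
    have h0 : 0 < ε / 2 ^ k := by positivity
    have hd : dist (x0 + (3 / 4 * (ε / 2 ^ k)) • u) x0 = 3 / 4 * (ε / 2 ^ k) := by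
      rw [dist_eq_norm, add_sub_cancel_left, norm_smul, hu, mul_one,
        Real.norm_of_nonneg (by positivity)]
    constructor
    · rw [hd, pow_succ, ← div_div]; linarith
    · rw [hd]; linarith
  have hUpos : ∀ k, 0 < (volume : Measure E) (U k) := fun k => (hUo k).measure_pos _ (hUne k)
  have hUtop : ∀ k, (volume : Measure E) (U k) ≠ ⊤ := fun k =>
    ne_top_of_le_ne_top measure_ball_lt_top.ne (measure_mono (hUb k))
  set w : ℕ → ℝ := fun k => min 1 ((volume : Measure E) (U k)).toReal with hw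
  have hw0 : ∀ k, 0 < w k := fun k => lt_min one_pos (ENNReal.toReal_pos (hUpos k).ne' (hUtop k))
  have hw1 : ∀ k, w k ≤ 1 := fun k => min_le_left _ _
  set ρ : ℕ → ℝ := fun k => w k ^ k with hρ
  have hρ0 : ∀ k, 0 < ρ k := fun k => pow_pos (hw0 k) k
  have hρ1 : ∀ k, ρ k ≤ 1 := fun k => pow_le_one₀ (hw0 k).le (hw1 k)
  obtain ⟨t, R, htc, hts, htR, htv, htd⟩ :=
    Besicovitch.exists_disjoint_closedBall_covering_ae (volume : Measure E)
      (fun x => {s | ∃ k, s < ρ k ∧ closedBall x s ⊆ U k}) (⋃ k, U k) (by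
        intro x hx δ hδ
        obtain ⟨k, hk⟩ := mem_iUnion.mp hx
        obtain ⟨s, hs, hsU⟩ := Metric.isOpen_iff.mp (hUo k) x hk
        have hm : 0 < min (min (s/2) (δ/2)) (ρ k / 2) :=
          lt_min (lt_min (by linarith) (by linarith)) (by have := hρ0 k; linarith)
        refine ⟨min (min (s/2) (δ/2)) (ρ k / 2), ⟨k, ?_, ?_⟩, hm, ?_⟩
        · have h1 := min_le_right (min (s/2) (δ/2)) (ρ k / 2)
          have := hρ0 k
          linarith
        · refine (closedBall_subset_ball ?_).trans hsU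
          have h1 := min_le_left (min (s/2) (δ/2)) (ρ k / 2)
          have h2 := min_le_left (s/2) (δ/2)
          linarith
        · have h1 := min_le_left (min (s/2) (δ/2)) (ρ k / 2)
          have h2 := min_le_right (s/2) (δ/2)
          linarith) (fun _ => 1) (fun _ _ => one_pos)
  refine ⟨U, ρ, t, R, htc, hUo, hUd, hUb, hρ0, hρ1, ?_, ?_, htd, htv⟩
  · intro δ hδ
    by_contra hne
    have h1 := ENNReal.tendsto_atTop_zero_of_tsum_ne_top hne
    obtain ⟨N, hN⟩ := exists_nat_ge (1/δ)
    have h2 : ∀ᶠ k in atTop, ENNReal.ofReal (ρ k ^ (-δ)) * (volume : Measure E) (U k) < 1 :=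
      h1.eventually (gt_mem_nhds one_pos)
    obtain ⟨k, hk1, hk2⟩ := (h2.and (eventually_ge_atTop N)).exists
    have h3 : 1 ≤ (k:ℝ) * δ := by
      have : 1/δ ≤ (k:ℝ) := hN.trans (by exact_mod_cast hk2)
      rwa [div_le_iff₀ hδ] at this
    have h4 : (w k)⁻¹ ≤ ρ k ^ (-δ) := by
      have e : ρ k ^ (-δ) = (w k) ^ (-((k:ℝ) * δ)) := by
        rw [hρ]
        change (w k ^ k) ^ (-δ) = _
        rw [← Real.rpow_natCast, ← Real.rpow_mul (hw0 k).le]
        congr 1; ring
      rw [e, ← Real.rpow_neg_one]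
      exact Real.rpow_le_rpow_of_exponent_ge (hw0 k) (hw1 k) (by linarith)
    have h5 : 1 ≤ ENNReal.ofReal (ρ k ^ (-δ)) * (volume : Measure E) (U k) := by
      have e : (volume : Measure E) (U k) = ENNReal.ofReal ((volume : Measure E) (U k)).toReal :=
        (ENNReal.ofReal_toReal (hUtop k)).symm
      rw [e, ← ENNReal.ofReal_mul (by have := hρ0 k; positivity), ← ENNReal.ofReal_one]
      apply ENNReal.ofReal_le_ofReal
      have h6 : w k ≤ ((volume : Measure E) (U k)).toReal := min_le_right _ _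
      calc (1:ℝ) = (w k)⁻¹ * w k := (inv_mul_cancel₀ (hw0 k).ne').symm
        _ ≤ ρ k ^ (-δ) * ((volume : Measure E) (U k)).toReal := by
            have := hw0 k
            gcongr
    exact absurd hk1 (not_lt.mpr h5)
  · intro x hx
    obtain ⟨⟨k, hk1, hk2⟩, h3, -⟩ := htR x hx
    exact ⟨h3, k, hk1, hk2⟩

/-- the main construction -/
theorem exists_fam (hd : 2 ≤ Module.finrank ℝ E) (x0 : E) {ε α b : ℝ} (hε : 0 < ε)
    (hα0 : 0 < α) (hα1 : α < 1) (hb1 : b < 1) (hαb : 1 - α < b) :
    ∃ (t : Set E) (_ : Countable t) (P : Fam t E), P.b = b ∧ P.α = α ∧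
      ∑' i, (volume : Measure E) (closedBall (P.c i) (P.R i)) ≠ ⊤ ∧
      ∀ p : ℝ, (Module.finrank ℝ E : ℝ) < b * p →
        ∫⁻ x in ball x0 ε, ‖P.DF x‖ₑ ^ p = ⊤ := by
  have hnt : Nontrivial E := Module.nontrivial_of_finrank_pos (R := ℝ) (by omega)
  obtain ⟨U, ρ, t, R, htc, hUo, hUd, hUb, hρ0, hρ1, hdiv, htR, htd, htv⟩ := exists_family x0 hε
  have hb0 : 0 < b := by linarith
  have hbα : 0 < b - (1 - α) := by linarith
  set s : ℝ := b / (b - (1 - α)) with hs
  have hs1 : 1 < s := by rw [hs, one_lt_div hbα]; linarith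
  have hsb : s * (b - (1 - α)) = b := div_mul_cancel₀ _ hbα.ne'
  have hR0 : ∀ i : t, 0 < R i := fun i => (htR i i.2).1
  have hR1 : ∀ i : t, R i ≤ 1 := by
    intro i
    obtain ⟨-, k, hk, -⟩ := htR i i.2
    exact hk.le.trans (hρ1 k)
  have hct : Countable t := htc.to_subtype
  let P : Fam t E :=
    { c := fun i => i
      r := fun i => R i ^ s
      R := fun i => R i
      b := b
      α := α
      hb0 := hb0.le
      hb1 := hb1
      hα0 := hα0
      hα1 := hα1
      hαb := hαb
      hr := fun i => Real.rpow_pos_of_pos (hR0 i) _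
      hrR := fun i => by
        calc R i ^ s ≤ R i ^ (1:ℝ) :=
              Real.rpow_le_rpow_of_exponent_ge (hR0 i) (hR1 i) hs1.le
          _ = R i := Real.rpow_one _
      hR1 := hR1
      hRr := fun i => by
        rw [← Real.rpow_mul (hR0 i).le, hsb]
      disj := fun i j hij => htd i.2 j.2 (fun h => hij (Subtype.ext h)) }
  have hsub : ∀ i : t, closedBall (P.c i) (P.R i) ⊆ ball x0 ε := by
    intro i
    obtain ⟨-, k, -, hk⟩ := htR i i.2
    exact hk.trans (hUb k)
  have hPd : Pairwise (Function.onFun Disjoint fun i : t => closedBall (P.c i) (P.R i)) :=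
    fun i j hij => P.disj i j hij
  refine ⟨t, hct, P, rfl, rfl, ?_, ?_⟩
  · refine ne_top_of_le_ne_top (measure_ball_lt_top (μ := (volume : Measure E)) (x := x0)
      (r := ε)).ne ?_
    refine (tsum_meas_le_meas_iUnion_of_disjoint volume
      (fun i : t => isClosed_closedBall.measurableSet) hPd).trans ?_
    exact measure_mono (iUnion_subset hsub)
  · intro p hp
    set d := Module.finrank ℝ E with hdd
    have hp0 : 0 < p := by
      have : (0:ℝ) ≤ d := Nat.cast_nonneg d
      by_contra h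
      push Not at h
      nlinarith
    set δ : ℝ := (s - 1) * (b * p - d) with hδ
    have hδ0 : 0 < δ := mul_pos (by linarith) (by linarith)
    set Φ : E → ℝ≥0∞ := fun y => ∑' k, (U k).indicator (fun _ => ENNReal.ofReal (ρ k ^ (-δ))) y
      with hΦ
    have hΦm : ∀ k, Measurable ((U k).indicator (fun _ : E => ENNReal.ofReal (ρ k ^ (-δ)))) :=
      fun k => measurable_const.indicator (hUo k).measurableSet
    have hΦint : ∫⁻ y : E, Φ y = ⊤ := by
      rw [hΦ, lintegral_tsum (fun k => (hΦm k).aemeasurable)]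
      rw [← hdiv δ hδ0]
      congr 1
      funext k
      rw [lintegral_indicator (hUo k).measurableSet, setLIntegral_const]
    have hΦU : ∀ k, ∀ y ∈ U k, Φ y = ENNReal.ofReal (ρ k ^ (-δ)) := by
      intro k y hy
      rw [hΦ]
      change ∑' k, (U k).indicator (fun _ => ENNReal.ofReal (ρ k ^ (-δ))) y = _
      rw [tsum_eq_single k]
      · rw [indicator_of_mem hy]
      · intro l hl
        rw [indicator_of_notMem]
        exact fun h => Set.disjoint_left.mp (hUd l k hl) h hy
    have hΦ0 : ∀ y, y ∉ ⋃ k, U k → Φ y = 0 := by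
      intro y hy
      simp only [mem_iUnion, not_exists] at hy
      rw [hΦ]
      change ∑' k, (U k).indicator (fun _ => ENNReal.ofReal (ρ k ^ (-δ))) y = _
      rw [tsum_congr (fun k => indicator_of_notMem (hy k) _), tsum_zero]
    have hUB : (⋃ x ∈ t, closedBall x (R x)) = ⋃ i : t, closedBall (P.c i) (P.R i) := by
      rw [biUnion_eq_iUnion]
    have h1 : ∫⁻ y : E, Φ y ≤ ∫⁻ y in ⋃ i : t, closedBall (P.c i) (P.R i), Φ y := by
      rw [← lintegral_indicator
        (MeasurableSet.iUnion (fun i => isClosed_closedBall.measurableSet))]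
      apply lintegral_mono_ae
      have h2 : ∀ᵐ y : E, y ∉ ((⋃ k, U k) \ ⋃ x ∈ t, closedBall x (R x)) :=
        measure_eq_zero_iff_ae_notMem.mp htv
      filter_upwards [h2] with y hy
      by_cases h3 : y ∈ ⋃ i : t, closedBall (P.c i) (P.R i)
      · rw [indicator_of_mem h3]
      · rw [indicator_of_notMem h3]
        rw [hUB] at hy
        have h4 : y ∉ ⋃ k, U k := fun h => hy ⟨h, h3⟩
        rw [hΦ0 y h4]
    have h2 : ∀ i : t, ∫⁻ y in closedBall (P.c i) (P.R i), Φ y ≤
        ∫⁻ y in ball (P.c i) (P.r i), ‖P.DF y‖ₑ ^ p := by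
      intro i
      obtain ⟨-, k, hk1, hk2⟩ := htR i i.2
      have hRi : 0 < R i := hR0 i
      have hri : 0 < R i ^ s := Real.rpow_pos_of_pos hRi s
      have h3 : ∫⁻ y in closedBall (P.c i) (P.R i), Φ y ≤
          ENNReal.ofReal (R i ^ (-δ)) * volume (closedBall (P.c i) (P.R i)) := by
        rw [← setLIntegral_const]
        apply setLIntegral_mono' isClosed_closedBall.measurableSet
        intro y hy
        rw [hΦU k y (hk2 hy)]
        apply ENNReal.ofReal_le_ofReal
        exact Real.rpow_le_rpow_of_nonpos hRi hk1.le (by linarith)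
      have h4 : ∫⁻ y in ball (P.c i) (P.r i), ‖P.DF y‖ₑ ^ p =
          ENNReal.ofReal ((R i / R i ^ s) ^ (b * p)) * volume (ball (P.c i) (P.r i)) := by
        rw [← setLIntegral_const]
        apply setLIntegral_congr_fun isOpen_ball.measurableSet
        intro y hy
        change ‖P.DF y‖ₑ ^ p = _
        rw [P.DF_core (mem_ball.mp hy)]
        have h5 : ‖((P.R i / P.r i) ^ P.b) • ContinuousLinearMap.id ℝ E‖ =
            (R i / R i ^ s) ^ b := by
          rw [norm_smul, ContinuousLinearMap.norm_id, mul_one]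
          exact Real.norm_of_nonneg (by positivity)
        rw [← ofReal_norm, h5, ENNReal.ofReal_rpow_of_nonneg (by positivity) hp0.le,
          ← Real.rpow_mul (by positivity)]
      rw [h4]
      refine h3.trans (le_of_eq ?_)
      rw [Measure.addHaar_ball volume _ hri.le, Measure.addHaar_closedBall volume _ hRi.le]
      rw [← mul_assoc, ← mul_assoc, ← ENNReal.ofReal_mul (by positivity),
        ← ENNReal.ofReal_mul (by positivity)]
      congr 2
      change R i ^ (-δ) * R i ^ d = (R i / R i ^ s) ^ (b * p) * (R i ^ s) ^ d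
      rw [← Real.rpow_natCast (R i ^ s) d, ← Real.rpow_natCast (R i) d,
        Real.div_rpow hRi.le hri.le, ← Real.rpow_mul hRi.le, ← Real.rpow_mul hRi.le,
        ← Real.rpow_add hRi, ← Real.rpow_sub hRi, ← Real.rpow_add hRi]
      congr 1
      rw [hδ]; ring
    rw [eq_top_iff, ← hΦint]
    refine h1.trans ((lintegral_iUnion_le _ _).trans ?_)
    refine (ENNReal.tsum_le_tsum h2).trans ?_
    rw [← lintegral_iUnion (fun i => isOpen_ball.measurableSet)]
    · apply lintegral_mono_set
      apply iUnion_subset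
      intro i
      refine (ball_subset_closedBall.trans (closedBall_subset_closedBall (P.hrR i))).trans
        (hsub i)
    · intro i j hij
      exact (P.disj i j hij).mono
        (ball_subset_closedBall.trans (closedBall_subset_closedBall (P.hrR i)))
        (ball_subset_closedBall.trans (closedBall_subset_closedBall (P.hrR j)))

end Pool.Agent.TH335.QC
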