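import Mathlib
import Pool.Agent.TH335.QCe

/-! Uniqueness of weak derivatives. -/

set_option autoImplicit false

open Set Filter Topology MeasureTheory Metric
open scoped NNReal RealInnerProductSpace ENNReal ContDiff
open Pool.Agent.Helper930.WD

namespace Pool.Agent.TH335.QC

variable {E : Type*} [NormedAddCommGroup E] [InnerProductSpace ℝ E]
  [FiniteDimensional ℝ E] [MeasurableSpace E] [BorelSpace E]

lemma integrable_smul_loc {G : Type*} [NormedAddCommGroup G] [NormedSpace ℝ G] {Ω : Set E}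
    {h : E → G} (hh : LocallyIntegrableOn h Ω)
    {φ : E → ℝ} (hφ : Continuous φ) (hc : HasCompactSupport φ) (hs : tsupport φ ⊆ Ω) :
    Integrable (fun x => φ x • h x) := by
  have h1 : IntegrableOn h (tsupport φ) := hh.integrableOn_compact_subset hs hc
  have h2 : IntegrableOn (fun x => φ x • h x) (tsupport φ) :=
    h1.continuousOn_smul hφ.continuousOn hc
  refine (integrableOn_iff_integrable_of_support_subset ?_).mp h2
  intro x hx
  apply subset_tsupport φ
  rw [Function.mem_support] at hx ⊢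
  intro h0
  apply hx
  rw [h0, zero_smul]

lemma locInt_apply {Ω : Set E} {T : E → E →L[ℝ] E} (hT : LocallyIntegrableOn T Ω) (v : E) :
    LocallyIntegrableOn (fun x => T x v) Ω := by
  intro x hx
  obtain ⟨s, hs, hi⟩ := hT x hx
  exact ⟨s, hs, (ContinuousLinearMap.apply ℝ E v).integrable_comp hi⟩

lemma weak_unique {Ω : Set E} (hΩ : IsOpen Ω) {f : E → E} {T1 T2 : E → E →L[ℝ] E}
    (h1 : WeakDerivOn Ω f T1) (h2 : WeakDerivOn Ω f T2) :
    ∀ᵐ x : E, x ∈ Ω → T1 x = T2 x := by
  have key : ∀ v : E, ∀ᵐ x : E, x ∈ Ω → T1 x v - T2 x v = 0 := by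
    intro v
    have hl1 := locInt_apply h1.2.1 v
    have hl2 := locInt_apply h2.2.1 v
    apply hΩ.ae_eq_zero_of_integral_contDiff_smul_eq_zero (hl1.sub hl2)
    intro φ hφ hc hs
    have e1 := h1.2.2 φ hφ hc hs v
    have e2 := h2.2.2 φ hφ hc hs v
    have i1 := integrable_smul_loc hl1 hφ.continuous hc hs
    have i2 := integrable_smul_loc hl2 hφ.continuous hc hs
    have e3 : ∀ x, φ x • ((fun x => T1 x v) - fun x => T2 x v) x =
        φ x • T1 x v - φ x • T2 x v := by
      intro x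
      rw [Pi.sub_apply, smul_sub]
    simp_rw [e3]
    rw [integral_sub i1 i2]
    rw [e1] at e2
    rw [neg_inj.mp e2, sub_self]
  let b := Module.finBasis ℝ E
  filter_upwards [ae_all_iff.mpr (fun i => key (b i))] with x hx hxΩ
  apply ContinuousLinearMap.coe_injective
  apply b.ext
  intro i
  exact sub_eq_zero.mp (hx i hxΩ)

lemma WeakDerivOn_mono {Ω Ω' : Set E} (h : Ω ⊆ Ω') {f : E → E} {T : E → E →L[ℝ] E}
    (hT : WeakDerivOn Ω' f T) : WeakDerivOn Ω f T :=
  ⟨hT.1.mono_set h, hT.2.1.mono_set h, fun φ hφ hc hs v => hT.2.2 φ hφ hc (hs.trans h) v⟩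

end Pool.Agent.TH335.QC
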